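import Mathlib
import Pool.Agent.Helper2.SeqGame.Def
import Pool.Agent.Helper2.SeqGame.Lower
import Pool.Agent.Helper2.SeqGame.Upper

set_option autoImplicit false

namespace Pool.Agent.Results.MP_f2e062_co.LeastAlphabetFive

open Pool.Agent.Helper2.SeqGame (PlayerOneWins)

/-- The least alphabet size for which Player 1 has a strategy in the sequence game (avoiding all
repetitions of total length at least `3`) is `5`; and he has a strategy exactly when there are at
least five letters. -/
theorem result : IsLeast {c : ℕ | PlayerOneWins c} 5 ∧ ∀ c : ℕ, PlayerOneWins c ↔ 5 ≤ c := by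
  have h : ∀ c : ℕ, PlayerOneWins c ↔ 5 ≤ c := by
    intro c
    constructor
    · intro hc
      by_contra hlt
      exact Pool.Agent.Helper2.SeqGame.lower (by omega) hc
    · intro hc
      exact Pool.Agent.Helper2.SeqGame.upper hc
  exact ⟨⟨(h 5).2 le_rfl, fun c hc => (h c).1 hc⟩, h⟩

end Pool.Agent.Results.MP_f2e062_co.LeastAlphabetFive
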